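import Mathlib

set_option autoImplicit false

namespace Pool.Agent.Results.MP_92077f_co.UpperKDomDrop

open Finset

open Classical in
/-- The sum of `g` over the closed neighbourhood of `v`. -/
noncomputable def nbSum {V : Type} [Fintype V] (G : SimpleGraph V) (g : V → ℕ) (v : V) : ℕ :=
  ∑ u ∈ univ.filter (fun u => u = v ∨ G.Adj v u), g u

/-- `g` is a `k`-dominating function of `G`. -/
def IsKDom {V : Type} [Fintype V] (G : SimpleGraph V) (k : ℕ) (g : V → ℕ) : Prop :=
  (∀ v, g v ≤ k) ∧ ∀ v, k ≤ nbSum G g v

/-- `g` is a minimal `k`-dominating function of `G`. -/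
def IsMinKDom {V : Type} [Fintype V] (G : SimpleGraph V) (k : ℕ) (g : V → ℕ) : Prop :=
  IsKDom G k g ∧ ∀ v, 0 < g v → ∃ u, (u = v ∨ G.Adj v u) ∧ nbSum G g u = k

/-- `m` is the upper `k`-domination number of `G`: the maximum weight of a minimal
`k`-dominating function. -/
def IsUpperKDom {V : Type} [Fintype V] (G : SimpleGraph V) (k m : ℕ) : Prop :=
  IsGreatest {w : ℕ | ∃ g : V → ℕ, IsMinKDom G k g ∧ ∑ v, g v = w} m

section general

variable {V : Type} [Fintype V] (G : SimpleGraph V)

lemma nbSum_eq (g : V → ℕ) (v : V) [DecidableEq V] [DecidableRel G.Adj] :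
    nbSum G g v = ∑ u, if u = v ∨ G.Adj v u then g u else 0 := by
  classical
  rw [nbSum, Finset.sum_filter]
  apply Finset.sum_congr rfl
  intro u _
  congr

/-- minimal dominating functions exist -/
lemma exists_minKDom (k : ℕ) : ∃ g : V → ℕ, IsMinKDom G k g := by
  classical
  -- choose a dominating function of least weight
  have hne : ∃ w : ℕ, ∃ g : V → ℕ, IsKDom G k g ∧ ∑ v, g v = w := by
    refine ⟨_, fun _ => k, ⟨fun _ => le_rfl, fun v => ?_⟩, rfl⟩
    rw [nbSum]
    have : (fun _ : V => k) v ≤ ∑ u ∈ univ.filter (fun u => u = v ∨ G.Adj v u), (fun _ : V => k) u :=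
      Finset.single_le_sum (f := fun _ : V => k) (fun _ _ => Nat.zero_le _)
        (Finset.mem_filter.mpr ⟨Finset.mem_univ v, Or.inl rfl⟩)
    exact this
  obtain ⟨g, hg, hw⟩ := Nat.find_spec hne
  refine ⟨g, hg, ?_⟩
  intro v hv
  by_contra hcon
  push Not at hcon
  have hlt : ∀ u, (u = v ∨ G.Adj v u) → k < nbSum G g u := fun u hu =>
    lt_of_le_of_ne (hg.2 u) (Ne.symm (hcon u hu))
  let g' : V → ℕ := Function.update g v (g v - 1)
  have hg'v : g' v = g v - 1 := by simp [g']
  have hg'u : ∀ u, u ≠ v → g' u = g u := by intro u hu; simp [g', hu]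
  have hsum : ∀ (s : Finset V), v ∈ s → ∑ u ∈ s, g' u + 1 = ∑ u ∈ s, g u := by
    intro s hs
    rw [← Finset.add_sum_erase s g' hs, ← Finset.add_sum_erase s g hs]
    have : ∑ u ∈ s.erase v, g' u = ∑ u ∈ s.erase v, g u :=
      Finset.sum_congr rfl fun u hu => hg'u u (Finset.ne_of_mem_erase hu)
    rw [this, hg'v]; omega
  have hdom : IsKDom G k g' := by
    refine ⟨fun u => ?_, fun u => ?_⟩
    · by_cases h : u = v
      · subst h; rw [hg'v]; have := hg.1 u; omega
      · rw [hg'u u h]; exact hg.1 u
    · by_cases h : u = v ∨ G.Adj v u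
      · have h1 := hlt u h
        have hmem : v ∈ univ.filter (fun w => w = u ∨ G.Adj u w) := by
          simp only [Finset.mem_filter, Finset.mem_univ, true_and]
          rcases h with h | h
          · exact Or.inl h.symm
          · exact Or.inr h.symm
        have h2 := hsum _ hmem
        have h3 : nbSum G g u = ∑ w ∈ univ.filter (fun w => w = u ∨ G.Adj u w), g w := by
          rw [nbSum]
        have h4 : nbSum G g' u = ∑ w ∈ univ.filter (fun w => w = u ∨ G.Adj u w), g' w := by
          rw [nbSum]
        rw [h4]; rw [h3] at h1; omega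
      · have : nbSum G g' u = nbSum G g u := by
          rw [nbSum, nbSum]
          apply Finset.sum_congr rfl
          intro w hw
          apply hg'u
          rintro rfl
          simp only [Finset.mem_filter, Finset.mem_univ, true_and] at hw
          rcases hw with hw | hw
          · exact h (Or.inl hw.symm)
          · exact h (Or.inr hw.symm)
        rw [this]; exact hg.2 u
  have hfind := Nat.find_min' hne ⟨g', hdom, rfl⟩
  have h5 := hsum univ (Finset.mem_univ v)
  omega

lemma exists_upper (k : ℕ) : ∃ m, IsUpperKDom G k m := by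
  classical
  obtain ⟨g, hg⟩ := exists_minKDom G k
  have hbdd : BddAbove {w : ℕ | ∃ g : V → ℕ, IsMinKDom G k g ∧ ∑ v, g v = w} := by
    refine ⟨∑ _v : V, k, ?_⟩
    rintro w ⟨g, hg, rfl⟩
    exact Finset.sum_le_sum fun v _ => hg.1.1 v
  exact ⟨_, Nat.sSup_mem ⟨_, g, hg, rfl⟩ hbdd, fun w hw => le_csSup hbdd hw⟩

end general

/-! ### The graph -/

section graph

variable (r l S : ℕ)

abbrev Core := Fin l × Fin r
abbrev Pend := Fin 4 × Fin l × Fin S
abbrev A := Core r l ⊕ (Pend l S ⊕ Unit)
abbrev B := (Fin 4 × {T : Finset (Core r l) // T.card = r + 1}) ⊕ (Pend l S ⊕ Unit)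

variable {r l S}

def cl : B r l S → Fin 4
  | Sum.inl p => p.1
  | Sum.inr (Sum.inl p) => p.1
  | Sum.inr (Sum.inr _) => 0

def inc : B r l S → A r l S → Prop
  | Sum.inl p, Sum.inl c => c ∈ p.2.1
  | Sum.inl _, Sum.inr _ => False
  | Sum.inr (Sum.inl p), Sum.inl c => c.1 = p.2.1
  | Sum.inr (Sum.inl p), Sum.inr (Sum.inl q) => q = p
  | Sum.inr (Sum.inl _), Sum.inr (Sum.inr _) => False
  | Sum.inr (Sum.inr _), _ => True

variable (r l S)

def G : SimpleGraph (A r l S ⊕ B r l S) where
  Adj
    | Sum.inl a, Sum.inl a' => a ≠ a'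
    | Sum.inl a, Sum.inr b => inc b a
    | Sum.inr b, Sum.inl a => inc b a
    | Sum.inr b, Sum.inr b' => b ≠ b' ∧ cl b' ≠ cl b + 2
  symm := by
    constructor
    rintro (a | b) (a' | b') h
    · exact Ne.symm h
    · exact h
    · exact h
    · refine ⟨Ne.symm h.1, ?_⟩
      intro h2
      apply h.2
      rw [h2]
      generalize cl b' = z
      revert z; decide
  loopless := by
    constructor
    rintro (a | b) h
    · exact h rfl
    · exact h.1 rfl

variable {r l S}

open Classical in
lemma nb_inl (g : A r l S ⊕ B r l S → ℕ) (a : A r l S) :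
    nbSum (G r l S) g (Sum.inl a) =
      ∑ a' : A r l S, g (Sum.inl a') + ∑ b : B r l S, if inc b a then g (Sum.inr b) else 0 := by
  rw [nbSum_eq, Fintype.sum_sum_type]
  congr 1
  · apply Finset.sum_congr rfl
    intro a' _
    rw [if_pos]
    by_cases h : a' = a
    · exact Or.inl (by rw [h])
    · exact Or.inr (Ne.symm h)
  · apply Finset.sum_congr rfl
    intro b _
    have : ((Sum.inr b : A r l S ⊕ B r l S) = Sum.inl a ∨ (G r l S).Adj (Sum.inl a) (Sum.inr b))
        ↔ inc b a := by
      constructor
      · rintro (h | h)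
        · exact absurd h (by simp)
        · exact h
      · intro h; exact Or.inr h
    simp only [this]

open Classical in
lemma nb_inr (g : A r l S ⊕ B r l S → ℕ) (b : B r l S) :
    nbSum (G r l S) g (Sum.inr b) =
      (∑ a : A r l S, if inc b a then g (Sum.inl a) else 0)
        + ∑ b' : B r l S, if cl b' ≠ cl b + 2 then g (Sum.inr b') else 0 := by
  rw [nbSum_eq, Fintype.sum_sum_type]
  congr 1
  · apply Finset.sum_congr rfl
    intro a _
    have : ((Sum.inl a : A r l S ⊕ B r l S) = Sum.inr b ∨ (G r l S).Adj (Sum.inr b) (Sum.inl a))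
        ↔ inc b a := by
      constructor
      · rintro (h | h)
        · exact absurd h (by simp)
        · exact h
      · intro h; exact Or.inr h
    simp only [this]
  · apply Finset.sum_congr rfl
    intro b' _
    have : ((Sum.inr b' : A r l S ⊕ B r l S) = Sum.inr b ∨ (G r l S).Adj (Sum.inr b) (Sum.inr b'))
        ↔ cl b' ≠ cl b + 2 := by
      constructor
      · rintro (h | h)
        · rw [Sum.inr.injEq] at h
          rw [h]
          generalize cl b = z
          revert z; decide
        · exact h.2
      · intro h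
        by_cases hb : b' = b
        · exact Or.inl (by rw [hb])
        · exact Or.inr ⟨Ne.symm hb, h⟩
    simp only [this]

/-- the special vertices -/
abbrev top : B r l S := Sum.inr (Sum.inr ())
abbrev bot : A r l S := Sum.inr (Sum.inr ())

lemma inc_bot {b : B r l S} : inc b bot ↔ b = top := by
  rcases b with p | p | u
  · simp [inc, bot]
  · simp [inc, bot]
  · simp [inc, bot]

open Classical in
lemma class_bound {K : ℕ} {g : A r l S ⊕ B r l S → ℕ} (hg : IsMinKDom (G r l S) K g) (i : Fin 4) :
    (∑ b : B r l S, if cl b = i then g (Sum.inr b) else 0) ≤ K := by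
  by_cases h : ∃ b : B r l S, cl b = i ∧ b ≠ top ∧ 0 < g (Sum.inr b)
  · obtain ⟨b, hbi, hbt, hb0⟩ := h
    obtain ⟨u, hu, huK⟩ := hg.2 _ hb0
    rcases u with a | b''
    · exfalso
      have hinc : inc b a := by
        rcases hu with hu | hu
        · exact absurd hu (by simp)
        · exact hu
      have h0 := hg.1.2 (Sum.inl bot)
      rw [nb_inl] at h0 huK
      have h1 : (∑ b : B r l S, if inc b bot then g (Sum.inr b) else 0) = g (Sum.inr top) := by
        simp only [inc_bot]
        rw [Finset.sum_ite_eq' univ (top : B r l S)]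
        simp
      have h2 : g (Sum.inr b) + g (Sum.inr top)
          ≤ ∑ b : B r l S, if inc b a then g (Sum.inr b) else 0 := by
        have hpair : ∑ b' ∈ ({b, top} : Finset (B r l S)), (if inc b' a then g (Sum.inr b') else 0)
            = g (Sum.inr b) + g (Sum.inr top) := by
          rw [Finset.sum_pair hbt]
          have : inc (top : B r l S) a := by
            simp [inc]
          simp [hinc, this]
        rw [← hpair]
        exact Finset.sum_le_sum_of_subset (Finset.subset_univ _)
      rw [h1] at h0
      omega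
    · have hcl : cl b'' ≠ cl b + 2 := by
        rcases hu with hu | hu
        · rw [Sum.inr.injEq] at hu
          rw [hu]
          generalize cl b = z
          revert z; decide
        · exact hu.2
      rw [nb_inr] at huK
      have : (∑ b : B r l S, if cl b = i then g (Sum.inr b) else 0)
          ≤ ∑ b' : B r l S, if cl b' ≠ cl b'' + 2 then g (Sum.inr b') else 0 := by
        apply Finset.sum_le_sum
        intro b' _
        by_cases h : cl b' = i
        · rw [if_pos h, if_pos]
          rw [h, ← hbi]
          intro h2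
          apply hcl
          rw [h2]
          generalize cl b'' = z
          revert z; decide
        · rw [if_neg h]; exact Nat.zero_le _
      omega
  · push Not at h
    have : (∑ b : B r l S, if cl b = i then g (Sum.inr b) else 0)
        ≤ ∑ b : B r l S, if b = top then g (Sum.inr b) else 0 := by
      apply Finset.sum_le_sum
      intro b _
      by_cases h1 : cl b = i
      · rw [if_pos h1]
        by_cases h2 : b = top
        · rw [if_pos h2]
        · have := h b h1 h2
          omega
      · rw [if_neg h1]; exact Nat.zero_le _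
    rw [Finset.sum_ite_eq' univ (top : B r l S)] at this
    simp only [Finset.mem_univ, if_true] at this
    exact this.trans (hg.1.1 _)

open Classical in
/-- the class sums and the sums over three consecutive classes -/
lemma three_classes (y : B r l S → ℕ) (i : Fin 4) :
    (∑ b' : B r l S, if cl b' ≠ i + 2 then y b' else 0)
      + (∑ b : B r l S, if cl b = i + 2 then y b else 0) = ∑ b, y b := by
  rw [← Finset.sum_add_distrib]
  apply Finset.sum_congr rfl
  intro b _
  by_cases h : cl b = i + 2 <;> simp [h]

open Classical in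
lemma class_total (y : B r l S → ℕ) :
    ∑ b, y b = (∑ b : B r l S, if cl b = 0 then y b else 0)
      + (∑ b : B r l S, if cl b = 1 then y b else 0)
      + (∑ b : B r l S, if cl b = 2 then y b else 0)
      + (∑ b : B r l S, if cl b = 3 then y b else 0) := by
  rw [← Finset.sum_add_distrib, ← Finset.sum_add_distrib, ← Finset.sum_add_distrib]
  apply Finset.sum_congr rfl
  intro b _
  generalize cl b = z
  fin_cases z <;> simp

open Classical in
/-- sum over the neighbourhood in the clique side of a vertex of the first kind -/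
lemma sum_inc_T (x : A r l S → ℕ) (i : Fin 4) (T : {T : Finset (Core r l) // T.card = r + 1}) :
    (∑ a : A r l S, if inc (Sum.inl (i, T) : B r l S) a then x a else 0)
      = ∑ c ∈ T.1, x (Sum.inl c) := by
  rw [Fintype.sum_sum_type]
  have h2 : (∑ a : Pend l S ⊕ Unit,
      if inc (Sum.inl (i, T) : B r l S) (Sum.inr a) then x (Sum.inr a) else 0) = 0 := by
    apply Finset.sum_eq_zero
    intro a _
    rw [if_neg]
    intro h; exact h
  rw [h2, add_zero, ← Finset.sum_filter]
  apply Finset.sum_congr _ fun _ _ => rfl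
  ext c
  simp only [Finset.mem_filter, Finset.mem_univ, true_and]
  exact Iff.rfl

open Classical in
lemma sum_inc_P (x : A r l S → ℕ) (p : Pend l S) :
    (∑ a : A r l S, if inc (Sum.inr (Sum.inl p) : B r l S) a then x a else 0)
      = (∑ t : Fin r, x (Sum.inl (p.2.1, t))) + x (Sum.inr (Sum.inl p)) := by
  rw [Fintype.sum_sum_type, Fintype.sum_sum_type]
  congr 1
  · rw [Fintype.sum_prod_type, Finset.sum_eq_single p.2.1]
    · apply Finset.sum_congr rfl
      intro t _
      rw [if_pos]
      exact (rfl : (p.2.1, t).1 = p.2.1)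
    · intro j _ hj
      apply Finset.sum_eq_zero
      intro t _
      rw [if_neg]
      intro h
      exact hj h
    · intro h; exact absurd (Finset.mem_univ _) h
  · rw [Finset.sum_eq_single p]
    · rw [if_pos (show inc (Sum.inr (Sum.inl p) : B r l S) (Sum.inr (Sum.inl p)) from rfl)]
      simp [inc]
    · intro q _ hq
      rw [if_neg]
      intro h
      exact hq h
    · intro h; exact absurd (Finset.mem_univ _) h

lemma arith_two (r b y0 y1 y2 y3 Y0 Y1 Y2 Y3 t : ℕ) (hb : r ≤ b)
    (e0 : Y0 + y2 = t) (e1 : Y1 + y3 = t) (e2 : Y2 + y0 = t) (e3 : Y3 + y1 = t)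
    (ht : t = y0 + y1 + y2 + y3) (f0 : Y0 ≠ 0) (f1 : Y1 ≠ 0) (f2 : Y2 ≠ 0) (f3 : Y3 ≠ 0) :
    (r + 2 - (Y0 + b)) + (r + 2 - (Y1 + b)) + (r + 2 - (Y2 + b)) + (r + 2 - (Y3 + b)) ≤ 2 := by
  have h : ∀ Y : ℕ, r + 2 - (Y + b) ≤ 2 - Y := by intro Y; omega
  have h0 := h Y0
  have h1 := h Y1
  have h2 := h Y2
  have h3 := h Y3
  have : (2 - Y0) + (2 - Y1) + (2 - Y2) + (2 - Y3) ≤ 2 := by
    clear h h0 h1 h2 h3 hb
    omega
  omega

open Classical in
/-- The key estimate. -/
theorem upper_bound (hr : 2 ≤ r) {g : A r l S ⊕ B r l S → ℕ}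
    (hg : IsMinKDom (G r l S) (r + 2) g) :
    ∑ v, g v ≤ (r + 2) * (l * r) + S * (2 * l + r * (4 * (r + 2))) + 5 * (r + 2) := by
  rw [Fintype.sum_sum_type]
  set x : A r l S → ℕ := fun a => g (Sum.inl a) with hx
  set y : B r l S → ℕ := fun b => g (Sum.inr b) with hy
  change ∑ a, x a + ∑ b, y b ≤ _
  have hc0 := class_bound hg 0
  have hc1 := class_bound hg 1
  have hc2 := class_bound hg 2
  have hc3 := class_bound hg 3
  have htot := class_total y
  have hβ : ∑ b, y b ≤ 4 * (r + 2) := by
    rw [htot]
    simp only [hy]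
    omega
  by_cases hα : ∑ a, x a ≤ r + 2
  · nlinarith [Nat.zero_le ((r + 2) * (l * r)), Nat.zero_le (S * (2 * l + r * (4 * (r + 2))))]
  push Not at hα
  -- sums over three consecutive classes
  let Y : Fin 4 → ℕ := fun i => ∑ b' : B r l S, if cl b' ≠ i + 2 then y b' else 0
  have hinr : ∀ b : B r l S, nbSum (G r l S) g (Sum.inr b)
      = (∑ a : A r l S, if inc b a then x a else 0) + Y (cl b) := fun b => nb_inr g b
  -- tight vertices lie on the second side
  have htight : ∀ a : A r l S, 0 < x a → ∃ b : B r l S, inc b a ∧ b ≠ top ∧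
      (∑ a' : A r l S, if inc b a' then x a' else 0) + Y (cl b) = r + 2 := by
    intro a ha
    obtain ⟨u, hu, huK⟩ := hg.2 (Sum.inl a) ha
    rcases u with a' | b
    · rw [nb_inl] at huK
      exfalso
      have : ∑ a, x a = ∑ a' : A r l S, g (Sum.inl a') := rfl
      omega
    · have hinc : inc b a := by
        rcases hu with hu | hu
        · exact absurd hu (by simp)
        · exact hu
      rw [hinr] at huK
      refine ⟨b, hinc, ?_, huK⟩
      rintro rfl
      have : (∑ a' : A r l S, if inc (top : B r l S) a' then x a' else 0) = ∑ a, x a := by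
        apply Finset.sum_congr rfl
        intro a' _
        rw [if_pos]
        simp [inc]
      omega
  -- the vertex bot
  have hbot : x bot = 0 := by
    by_contra h
    obtain ⟨b, hb, hbt, -⟩ := htight bot (Nat.pos_of_ne_zero h)
    exact hbt (inc_bot.mp hb)
  -- block sums
  let blk : Fin l → ℕ := fun j => ∑ t : Fin r, x (Sum.inl (j, t))
  have hpend : ∀ p : Pend l S, x (Sum.inr (Sum.inl p)) ≤ (r + 2) - (Y p.1 + blk p.2.1) := by
    intro p
    by_cases h0 : x (Sum.inr (Sum.inl p)) = 0
    · omega
    obtain ⟨b, hb, hbt, hsum⟩ := htight _ (Nat.pos_of_ne_zero h0)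
    rcases b with q | q | u
    · exact absurd hb (by simp [inc])
    · have hpq : p = q := hb
      subst hpq
      rw [sum_inc_P] at hsum
      have h1 : Y (cl (Sum.inr (Sum.inl p) : B r l S)) = Y p.1 := rfl
      have h2 : blk p.2.1 = ∑ t : Fin r, x (Sum.inl (p.2.1, t)) := rfl
      rw [h1] at hsum
      omega
    · exact absurd rfl hbt
  -- constraints from the vertices of the first kind
  have hT : ∀ (i : Fin 4) (T : Finset (Core r l)), T.card = r + 1 →
      r + 2 ≤ (∑ c ∈ T, x (Sum.inl c)) + Y i := by
    intro i T hTc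
    have := hg.1.2 (Sum.inr (Sum.inl (i, ⟨T, hTc⟩)))
    rw [hinr, sum_inc_T] at this
    exact this
  let D : Fin l → ℕ := fun j => ∑ i : Fin 4, ((r + 2) - (Y i + blk j))
  have hD4 : ∀ j, D j ≤ 4 * (r + 2) := by
    intro j
    simp only [D, Fin.sum_univ_four]
    omega
  -- exceptional set
  have hEx : ∃ Ex : Finset (Core r l), Ex.card ≤ r ∧
      ∀ j, (∀ t, (j, t) ∉ Ex) → D j ≤ 2 := by
    by_cases hI : ∃ i, Y i = 0
    · obtain ⟨i, hi⟩ := hI
      refine ⟨univ.filter fun c => x (Sum.inl c) ≤ 1, ?_, ?_⟩
      · by_contra hcard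
        push Not at hcard
        obtain ⟨T, hTsub, hTc⟩ := Finset.exists_subset_card_eq (Nat.succ_le_of_lt hcard)
        have h1 := hT i T hTc
        have h2 : ∑ c ∈ T, x (Sum.inl c) ≤ ∑ _c ∈ T, 1 := by
          apply Finset.sum_le_sum
          intro c hc
          have := hTsub hc
          simpa using this
        rw [Finset.sum_const, hTc, smul_eq_mul] at h2
        omega
      · intro j hj
        have h1 : ∑ _t : Fin r, 2 ≤ blk j := by
          apply Finset.sum_le_sum
          intro t _
          have := hj t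
          simp only [Finset.mem_filter, Finset.mem_univ, true_and, not_le] at this
          exact this
        rw [Finset.sum_const, Finset.card_univ, Fintype.card_fin, smul_eq_mul] at h1
        simp only [D, Fin.sum_univ_four]
        omega
    · push Not at hI
      by_cases hII : ∃ i, Y i ≤ r + 1
      · obtain ⟨i, hi⟩ := hII
        refine ⟨univ.filter fun c => x (Sum.inl c) = 0, ?_, ?_⟩
        · by_contra hcard
          push Not at hcard
          obtain ⟨T, hTsub, hTc⟩ := Finset.exists_subset_card_eq (Nat.succ_le_of_lt hcard)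
          have h1 := hT i T hTc
          have h2 : ∑ c ∈ T, x (Sum.inl c) = 0 := by
            apply Finset.sum_eq_zero
            intro c hc
            have := hTsub hc
            simpa using this
          omega
        · intro j hj
          have h1 : ∑ _t : Fin r, 1 ≤ blk j := by
            apply Finset.sum_le_sum
            intro t _
            have := hj t
            simp only [Finset.mem_filter, Finset.mem_univ, true_and] at this
            exact Nat.one_le_iff_ne_zero.mpr this
          rw [Finset.sum_const, Finset.card_univ, Fintype.card_fin, smul_eq_mul] at h1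
          have e0 := three_classes y 0
          have e1 := three_classes y 1
          have e2 := three_classes y 2
          have e3 := three_classes y 3
          have f0 := hI 0
          have f1 := hI 1
          have f2 := hI 2
          have f3 := hI 3
          simp only [D, Fin.sum_univ_four]
          have g0 : (0 : Fin 4) + 2 = 2 := rfl
          have g1 : (1 : Fin 4) + 2 = 3 := rfl
          have g2 : (2 : Fin 4) + 2 = 0 := rfl
          have g3 : (3 : Fin 4) + 2 = 1 := rfl
          have k0 : Y 0 = ∑ b' : B r l S, if cl b' ≠ 0 + 2 then y b' else 0 := rfl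
          have k1 : Y 1 = ∑ b' : B r l S, if cl b' ≠ 1 + 2 then y b' else 0 := rfl
          have k2 : Y 2 = ∑ b' : B r l S, if cl b' ≠ 2 + 2 then y b' else 0 := rfl
          have k3 : Y 3 = ∑ b' : B r l S, if cl b' ≠ 3 + 2 then y b' else 0 := rfl
          rw [← k0, g0] at e0
          rw [← k1, g1] at e1
          rw [← k2, g2] at e2
          rw [← k3, g3] at e3
          rw [mul_one] at h1
          exact arith_two r (blk j) _ _ _ _ _ _ _ _ _ h1 e0 e1 e2 e3 htot f0 f1 f2 f3
      · push Not at hII
        refine ⟨∅, by simp, ?_⟩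
        intro j _
        have f0 := hII 0
        have f1 := hII 1
        have f2 := hII 2
        have f3 := hII 3
        simp only [D, Fin.sum_univ_four]
        omega
  obtain ⟨Ex, hExc, hExD⟩ := hEx
  have hDsum : ∑ j, D j ≤ 2 * l + r * (4 * (r + 2)) := by
    have h1 : ∀ j, D j ≤ 2 + (if j ∈ Ex.image Prod.fst then 4 * (r + 2) else 0) := by
      intro j
      by_cases hj : j ∈ Ex.image Prod.fst
      · rw [if_pos hj]
        have := hD4 j
        omega
      · rw [if_neg hj]
        apply hExD
        intro t ht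
        exact hj (Finset.mem_image.mpr ⟨_, ht, rfl⟩)
    calc ∑ j, D j ≤ ∑ j : Fin l, (2 + (if j ∈ Ex.image Prod.fst then 4 * (r + 2) else 0)) :=
          Finset.sum_le_sum fun j _ => h1 j
      _ = 2 * l + (Ex.image Prod.fst).card * (4 * (r + 2)) := by
          rw [Finset.sum_add_distrib, Finset.sum_const, Finset.card_univ, Fintype.card_fin,
            smul_eq_mul, mul_comm l 2, ← Finset.sum_filter, Finset.sum_const, smul_eq_mul]
          congr 2
          rw [Finset.filter_mem_eq_inter, Finset.univ_inter]
      _ ≤ 2 * l + r * (4 * (r + 2)) := by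
          have := (Finset.card_image_le (s := Ex) (f := Prod.fst)).trans hExc
          exact Nat.add_le_add_left (Nat.mul_le_mul_right _ this) _
  -- the three parts of the clique side
  have hcore : ∑ c : Core r l, x (Sum.inl c) ≤ (r + 2) * (l * r) := by
    calc ∑ c : Core r l, x (Sum.inl c) ≤ ∑ _c : Core r l, (r + 2) :=
          Finset.sum_le_sum fun c _ => hg.1.1 _
      _ = (r + 2) * (l * r) := by
          rw [Finset.sum_const, Finset.card_univ, Fintype.card_prod, Fintype.card_fin,
            Fintype.card_fin, smul_eq_mul, mul_comm]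
  have hpd : ∑ p : Pend l S, x (Sum.inr (Sum.inl p)) ≤ S * (2 * l + r * (4 * (r + 2))) := by
    calc ∑ p : Pend l S, x (Sum.inr (Sum.inl p))
        ≤ ∑ p : Pend l S, ((r + 2) - (Y p.1 + blk p.2.1)) :=
          Finset.sum_le_sum fun p _ => hpend p
      _ = ∑ i : Fin 4, ∑ j : Fin l, ∑ _s : Fin S, ((r + 2) - (Y i + blk j)) := by
          rw [Fintype.sum_prod_type]
          apply Finset.sum_congr rfl
          intro i _
          rw [Fintype.sum_prod_type]
      _ = S * ∑ j, D j := by
          rw [Finset.sum_comm, Finset.mul_sum]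
          apply Finset.sum_congr rfl
          intro j _
          simp only [D]
          rw [Finset.mul_sum]
          apply Finset.sum_congr rfl
          intro i _
          rw [Finset.sum_const, Finset.card_univ, Fintype.card_fin, smul_eq_mul]
      _ ≤ S * (2 * l + r * (4 * (r + 2))) := Nat.mul_le_mul_left _ hDsum
  have hsplit : ∑ a, x a = ∑ c : Core r l, x (Sum.inl c)
      + (∑ p : Pend l S, x (Sum.inr (Sum.inl p)) + x bot) := by
    rw [Fintype.sum_sum_type, Fintype.sum_sum_type]
    simp
  rw [hsplit, hbot]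
  omega

/-- the heavy minimal function -/
def heavy : A r l S ⊕ B r l S → ℕ
  | Sum.inl (Sum.inl _) => 1
  | Sum.inl (Sum.inr (Sum.inl _)) => 1
  | Sum.inl (Sum.inr (Sum.inr _)) => 0
  | Sum.inr _ => 0

lemma heavy_sumA : ∑ a : A r l S, (heavy : A r l S ⊕ B r l S → ℕ) (Sum.inl a)
    = l * r + 4 * (l * S) := by
  rw [Fintype.sum_sum_type, Fintype.sum_sum_type]
  simp [heavy]

lemma heavy_sum : ∑ v, (heavy : A r l S ⊕ B r l S → ℕ) v = l * r + 4 * (l * S) := by
  rw [Fintype.sum_sum_type, heavy_sumA]
  simp [heavy]

open Classical in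
lemma heavy_min (hl : 1 ≤ l) (hS : 1 ≤ S) :
    IsMinKDom (G r l S) (r + 1) (heavy : A r l S ⊕ B r l S → ℕ) := by
  have hbig : r + 1 ≤ l * r + 4 * (l * S) := by
    have h1 : 1 * r ≤ l * r := Nat.mul_le_mul_right _ hl
    have h2 : 1 * 1 ≤ l * S := Nat.mul_le_mul hl hS
    omega
  have hinr : ∀ b : B r l S, nbSum (G r l S) heavy (Sum.inr b)
      = ∑ a : A r l S, if inc b a then (heavy : A r l S ⊕ B r l S → ℕ) (Sum.inl a) else 0 := by
    intro b
    rw [nb_inr]
    simp [heavy]
  have hP : ∀ p : Pend l S, nbSum (G r l S) heavy (Sum.inr (Sum.inr (Sum.inl p))) = r + 1 := by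
    intro p
    rw [hinr, sum_inc_P (fun a => heavy (Sum.inl a))]
    simp [heavy]
  refine ⟨⟨?_, ?_⟩, ?_⟩
  · rintro ((c | p | u) | b) <;> simp [heavy]
  · rintro (a | b)
    · rw [nb_inl, heavy_sumA]
      omega
    · rcases b with ⟨i, T⟩ | p | u
      · rw [hinr, sum_inc_T (fun a => heavy (Sum.inl a))]
        simp only [heavy, Finset.sum_const, T.2, smul_eq_mul, mul_one]
        exact le_rfl
      · rw [hP]
      · rw [hinr]
        have : (∑ a : A r l S, if inc (Sum.inr (Sum.inr u) : B r l S) a
            then (heavy : A r l S ⊕ B r l S → ℕ) (Sum.inl a) else 0)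
            = ∑ a : A r l S, (heavy : A r l S ⊕ B r l S → ℕ) (Sum.inl a) := by
          apply Finset.sum_congr rfl
          intro a _
          rw [if_pos]
          simp [inc]
        rw [this, heavy_sumA]
        exact hbig
  · rintro ((c | p | u) | b) hv
    · exact ⟨Sum.inr (Sum.inr (Sum.inl (0, c.1, ⟨0, hS⟩))), Or.inr rfl, hP _⟩
    · exact ⟨Sum.inr (Sum.inr (Sum.inl p)), Or.inr rfl, hP _⟩
    · exact absurd hv (by simp [heavy])
    · exact absurd hv (by simp [heavy])

end graph

/-- For every `k ≥ 3` there is a finite graph whose upper `(k+1)`-domination number is smaller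
than its upper `k`-domination number. -/
theorem result (k : ℕ) (hk : 3 ≤ k) :
    ∃ (V : Type) (_ : Fintype V) (G : SimpleGraph V) (a b : ℕ),
      IsUpperKDom G k a ∧ IsUpperKDom G (k + 1) b ∧ b < a := by
  obtain ⟨r, rfl⟩ : ∃ r, k = r + 1 := ⟨k - 1, by omega⟩
  have hr : 2 ≤ r := by omega
  set K := r + 2 with hK
  set l := 4 * (K * r) with hl
  set S := K * r + 2 with hS
  have hl1 : 1 ≤ l := by
    rw [hl, hK]; nlinarith
  obtain ⟨a, ha⟩ := exists_upper (G r l S) (r + 1)
  obtain ⟨b, hb⟩ := exists_upper (G r l S) (r + 1 + 1)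
  refine ⟨_, inferInstance, G r l S, a, b, ha, hb, ?_⟩
  obtain ⟨g, hg, hgb⟩ := hb.1
  have h1 := upper_bound hr hg
  have h2 := ha.2 ⟨_, heavy_min (r := r) hl1 (by omega : 1 ≤ S), rfl⟩
  rw [heavy_sum] at h2
  rw [hgb] at h1
  refine lt_of_le_of_lt h1 (lt_of_lt_of_le ?_ h2)
  rw [hS, hl, hK]
  nlinarith [hr, mul_pos (show 0 < r by omega) (show 0 < r by omega)]

end Pool.Agent.Results.MP_92077f_co.UpperKDomDrop
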